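import Pool.Agent.helper55.GL.Spec

/-!
# Project gl:, module EMB
-/

set_option autoImplicit false

namespace Pool.Agent.GL

open SimpleGraph

theorem EMB (hBAS : BAS_stmt) : EMB_stmt := by
  intro V W H K c d S T α hST hinj hadj hcol n
  rw [(hBAS V H c).1]
  intro B hB
  refine ((hBAS W K d).1 n T _).1 le_rfl B ?_
  rintro ⟨φ, h1, h2⟩
  refine hB ⟨fun a => φ (α a), fun a ha b hb hc he => ?_, fun a ha b hb hab hca hcb => ?_⟩
  · exact hinj ha hb (h1 _ (hST a ha) _ (hST b hb) (by rw [hcol a ha, hcol b hb, hc]) he)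
  · exact h2 _ (hST a ha) _ (hST b hb) (hadj a ha b hb hab) (by rw [hcol a ha, hca])
      (by rw [hcol b hb, hcb])

end Pool.Agent.GL
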